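import Pool.Agent.Lib.MP_f42431_co.CompsInv

/-!
# Adjacent swaps, descents, support
-/

set_option autoImplicit false

namespace Pool.Agent.Lib.MP_f42431_co

open Finset

variable {m n : ℕ}

/-- the transposition of the positions `a` and `a + 1` -/
def sw (a : Fin n) : Equiv.Perm (Fin (n + 1)) := Equiv.swap a.castSucc a.succ

theorem mul_sw_sw (σ : Equiv.Perm (Fin (n + 1))) (a : Fin n) : σ * sw a * sw a = σ := by
  rw [mul_assoc, sw, Equiv.swap_mul_self, mul_one]

theorem sw_apply_apply (a : Fin n) (x : Fin (n + 1)) : sw a (sw a x) = x := by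
  rw [← Equiv.Perm.mul_apply, sw, Equiv.swap_mul_self, Equiv.Perm.one_apply]

theorem sw_left (a : Fin n) : sw a a.castSucc = a.succ := Equiv.swap_apply_left _ _

theorem sw_right (a : Fin n) : sw a a.succ = a.castSucc := Equiv.swap_apply_right _ _

theorem sw_of_ne {a : Fin n} {x : Fin (n + 1)} (h1 : (x : ℕ) ≠ a) (h2 : (x : ℕ) ≠ a + 1) :
    sw a x = x :=
  Equiv.swap_apply_of_ne_of_ne (fun h => h1 (by rw [h]; rfl)) (fun h => h2 (by rw [h]; simp))

theorem sw_val (a : Fin n) (x : Fin (n + 1)) :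
    ((sw a x : Fin (n + 1)) : ℕ) =
      if (x : ℕ) = a then (a : ℕ) + 1 else if (x : ℕ) = a + 1 then (a : ℕ) else x := by
  by_cases h1 : (x : ℕ) = a
  · have : x = a.castSucc := Fin.ext h1
    rw [if_pos h1, this, sw_left]
    simp
  · rw [if_neg h1]
    by_cases h2 : (x : ℕ) = a + 1
    · have : x = a.succ := Fin.ext (by rw [h2]; simp)
      rw [if_pos h2, this, sw_right]
      simp
    · rw [if_neg h2, sw_of_ne h1 h2]

theorem sw_lt {a : Fin n} {x y : Fin (n + 1)} (h : x < y)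
    (hne : ¬ ((x : ℕ) = a ∧ (y : ℕ) = a + 1)) : sw a x < sw a y := by
  rw [Fin.lt_def] at h ⊢
  rw [sw_val, sw_val]
  split_ifs <;> omega

/-- the descents -/
def Des (σ : Equiv.Perm (Fin (n + 1))) : Finset (Fin n) :=
  univ.filter fun a => σ a.succ < σ a.castSucc

theorem mem_Des {σ : Equiv.Perm (Fin (n + 1))} {a : Fin n} :
    a ∈ Des σ ↔ σ a.succ < σ a.castSucc := by simp [Des]

theorem lt_of_notMem_Des {σ : Equiv.Perm (Fin (n + 1))} {a : Fin n} (h : a ∉ Des σ) :
    σ a.castSucc < σ a.succ := by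
  rw [mem_Des, not_lt] at h
  exact lt_of_le_of_ne h fun h' => (Fin.castSucc_lt_succ (i := a)).ne (σ.injective h')

theorem inv_mul_sw {σ : Equiv.Perm (Fin (n + 1))} {a : Fin n} (h : a ∉ Des σ) :
    inv (σ * sw a) = inv σ + 1 := by
  classical
  have h' := lt_of_notMem_Des h
  have e : ((univ : Finset (Fin (n + 1) × Fin (n + 1))).filter
      fun q => q.1 < q.2 ∧ (σ * sw a) q.2 < (σ * sw a) q.1) =
      insert (a.castSucc, a.succ) (((univ : Finset (Fin (n + 1) × Fin (n + 1))).filter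
        fun q => q.1 < q.2 ∧ σ q.2 < σ q.1).image fun q => (sw a q.1, sw a q.2)) := by
    ext ⟨i, j⟩
    simp only [mem_filter, mem_univ, true_and, mem_insert, mem_image, Prod.mk.injEq, Prod.exists]
    rw [Equiv.Perm.mul_apply, Equiv.Perm.mul_apply]
    constructor
    · rintro ⟨h1, h2⟩
      by_cases hij : (i : ℕ) = a ∧ (j : ℕ) = a + 1
      · exact Or.inl ⟨Fin.ext hij.1, Fin.ext (by rw [hij.2]; simp)⟩
      · exact Or.inr ⟨sw a i, sw a j, ⟨sw_lt h1 hij, h2⟩, sw_apply_apply a i, sw_apply_apply a j⟩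
    · rintro (⟨rfl, rfl⟩ | ⟨x, y, ⟨h1, h2⟩, rfl, rfl⟩)
      · rw [sw_left, sw_right]
        exact ⟨Fin.castSucc_lt_succ, h'⟩
      · rw [sw_apply_apply, sw_apply_apply]
        refine ⟨sw_lt h1 fun hc => ?_, h2⟩
        have e1 : x = a.castSucc := Fin.ext hc.1
        have e2 : y = a.succ := Fin.ext (by rw [hc.2]; simp)
        rw [e1, e2] at h2
        exact lt_asymm h2 h'
  unfold inv
  rw [e, card_insert_of_notMem, card_image_of_injective]
  · rintro ⟨x, y⟩ ⟨x', y'⟩ hxy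
    simp only [Prod.mk.injEq, EmbeddingLike.apply_eq_iff_eq] at hxy
    exact Prod.ext hxy.1 hxy.2
  · intro hc
    simp only [mem_filter, mem_univ, true_and, mem_image, Prod.mk.injEq, Prod.exists] at hc
    obtain ⟨x, y, ⟨h1, -⟩, h2, h3⟩ := hc
    have e1 : x = a.succ := by rw [← sw_apply_apply a x, h2, sw_left]
    have e2 : y = a.castSucc := by rw [← sw_apply_apply a y, h3, sw_right]
    rw [e1, e2] at h1
    exact lt_asymm h1 Fin.castSucc_lt_succ

theorem mem_Des_mul_sw {σ : Equiv.Perm (Fin (n + 1))} {a : Fin n} :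
    a ∈ Des (σ * sw a) ↔ a ∉ Des σ := by
  rw [mem_Des, Equiv.Perm.mul_apply, Equiv.Perm.mul_apply, sw_left, sw_right]
  refine ⟨fun h h' => lt_asymm h (mem_Des.1 h'), fun h => lt_of_notMem_Des h⟩

theorem inv_mul_sw' {σ : Equiv.Perm (Fin (n + 1))} {a : Fin n} (h : a ∈ Des σ) :
    inv (σ * sw a) + 1 = inv σ := by
  have h1 : a ∉ Des (σ * sw a) := fun hc => mem_Des_mul_sw.1 hc h
  have h2 := inv_mul_sw h1
  rw [mul_sw_sw] at h2
  exact h2.symm

theorem card_Des_le (σ : Equiv.Perm (Fin (n + 1))) : (Des σ).card ≤ inv σ := by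
  unfold inv
  refine card_le_card_of_injOn (fun a => (a.castSucc, a.succ)) ?_ ?_
  · intro a ha
    have ha' := mem_Des.1 ha
    simp only [coe_filter, mem_univ, true_and, Set.mem_ofPred_eq]
    exact ⟨Fin.castSucc_lt_succ, ha'⟩
  · intro a _ b _ h
    exact Fin.castSucc_injective _ (Prod.mk.inj h).1

theorem exists_desc (σ : Equiv.Perm (Fin (n + 1))) : ∀ (d : ℕ) (x y : Fin (n + 1)),
    (y : ℕ) = x + d → σ y < σ x →
    ∃ a ∈ Des σ, (x : ℕ) ≤ a ∧ (a : ℕ) + 1 ≤ y := by
  intro d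
  induction d with
  | zero =>
    intro x y h1 h2
    have : y = x := Fin.ext h1
    rw [this] at h2
    exact absurd h2 (lt_irrefl _)
  | succ d ih =>
    intro x y h1 h2
    have hx : (x : ℕ) < n := by have := y.2; omega
    by_cases hz : (⟨x, hx⟩ : Fin n) ∈ Des σ
    · exact ⟨_, hz, le_rfl, by simp only; omega⟩
    · have h3 := lt_of_notMem_Des hz
      have e : (⟨x, hx⟩ : Fin n).castSucc = x := Fin.ext rfl
      rw [e] at h3
      obtain ⟨a, ha, h4, h5⟩ := ih (⟨x, hx⟩ : Fin n).succ y (by simp; omega) (h2.trans h3)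
      exact ⟨a, ha, by simp at h4; omega, h5⟩

theorem exists_desc' {σ : Equiv.Perm (Fin (n + 1))} {x y : Fin (n + 1)} (h : x < y)
    (h2 : σ y < σ x) : ∃ a ∈ Des σ, (x : ℕ) ≤ a ∧ (a : ℕ) + 1 ≤ y :=
  exists_desc σ (y - x) x y (by rw [Fin.lt_def] at h; omega) h2

/-- the gaps which are not cuts -/
noncomputable def supp (σ : Equiv.Perm (Fin (n + 1))) : Finset (Fin n) := by
  classical exact univ.filter fun g => ¬ Cut σ ((g : ℕ) + 1)

theorem mem_supp {σ : Equiv.Perm (Fin (n + 1))} {g : Fin n} :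
    g ∈ supp σ ↔ ¬ Cut σ ((g : ℕ) + 1) := by simp [supp]

theorem card_supp_le (σ : Equiv.Perm (Fin (n + 1))) : (supp σ).card ≤ inv σ := by
  classical
  have h1 := le_comps_add_inv σ
  have h2 : comps σ + ((univ : Finset (Fin (n + 1))).filter
      (fun c => ¬ ∀ i : Fin (n + 1), i ≤ c → σ i ≤ c)).card = n + 1 := by
    unfold comps
    rw [Finset.card_filter_add_card_filter_not]
    simp
  have h3 : (supp σ).card ≤ ((univ : Finset (Fin (n + 1))).filter
      (fun c => ¬ ∀ i : Fin (n + 1), i ≤ c → σ i ≤ c)).card := by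
    refine card_le_card_of_injOn Fin.castSucc ?_ (Fin.castSucc_injective _).injOn
    intro g hg
    have hg' := mem_supp.1 hg
    simp only [coe_filter, mem_univ, true_and, Set.mem_ofPred_eq]
    intro hc
    refine hg' fun i hi => ?_
    have := hc i (by rw [Fin.le_def]; simp; omega)
    rw [Fin.le_def] at this
    simp at this
    omega
  omega

theorem mem_supp_of_inv {σ : Equiv.Perm (Fin (n + 1))} {x y : Fin (n + 1)} (h : σ y < σ x)
    {g : Fin n} (h1 : (x : ℕ) ≤ g) (h2 : (g : ℕ) + 1 ≤ y) : g ∈ supp σ := by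
  rw [mem_supp]
  intro hc
  have h3 := hc x (by omega)
  have h4 := hc.ge h2
  rw [Fin.lt_def] at h
  omega

theorem mem_supp_of_Des {σ : Equiv.Perm (Fin (n + 1))} {g : Fin n} (h : g ∈ Des σ) :
    g ∈ supp σ :=
  mem_supp_of_inv (mem_Des.1 h) (by simp) (by simp)

theorem mem_supp_mul_sw {σ : Equiv.Perm (Fin (n + 1))} {g c : Fin n} (h : g ∈ supp σ)
    (hgc : (g : ℕ) ≠ c) : g ∈ supp (σ * sw c) := by
  rw [mem_supp] at h ⊢
  intro hc
  refine h fun i hi => ?_
  have h1 := hc (sw c i) (by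
    rw [sw_val]
    split_ifs <;> omega)
  rwa [Equiv.Perm.mul_apply, sw_apply_apply] at h1

theorem f_add {l : ℕ} (f : Fin m → Fin l) (hf : StrictMono f) : ∀ (t : ℕ) (j : Fin m)
    (h : (j : ℕ) + t < m), (f j : ℕ) + t ≤ f ⟨j + t, h⟩ := by
  intro t
  induction t with
  | zero => intro j h; exact le_rfl
  | succ t ih =>
    intro j h
    have h1 := ih j (by omega)
    have h2 : f ⟨j + t, by omega⟩ < f ⟨j + (t + 1), h⟩ := hf (by rw [Fin.lt_def]; simp)
    rw [Fin.lt_def] at h2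
    omega

theorem le_f {l : ℕ} (f : Fin m → Fin l) (hf : StrictMono f) (j : Fin m) : (j : ℕ) ≤ f j := by
  have hm : 0 < m := by have := j.2; omega
  have h1 := f_add f hf j ⟨0, hm⟩ (by simp)
  have e : (⟨(⟨0, hm⟩ : Fin m) + (j : ℕ), by simp⟩ : Fin m) = j := Fin.ext (by simp)
  rw [e] at h1
  omega

theorem f_le {l : ℕ} (f : Fin m → Fin l) (hf : StrictMono f) (j : Fin m) :
    (f j : ℕ) + m ≤ j + l := by
  have h1 := f_add f hf (m - 1 - j) j (by have := j.2; omega)
  have h2 := (f ⟨j + (m - 1 - j), by have := j.2; omega⟩).2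
  have := j.2
  omega

theorem exists_Des_of_ne_one {p : Equiv.Perm (Fin (m + 1))} (h : p ≠ 1) : ∃ i, i ∈ Des p := by
  by_contra hc
  push Not at hc
  refine h (Equiv.ext fun x => ?_)
  have hm : StrictMono p := by
    intro x y hxy
    by_contra hxy'
    rw [not_lt] at hxy'
    have h1 : p y < p x := lt_of_le_of_ne hxy' fun h' => hxy.ne (p.injective h').symm
    obtain ⟨a, ha, -⟩ := exists_desc' hxy h1
    exact hc a ha
  have h1 := le_f p hm x
  have h2 := f_le p hm x
  exact Fin.ext (by rw [Equiv.Perm.one_apply]; omega)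

end Pool.Agent.Lib.MP_f42431_co
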