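import Pool.Agent.Lib.MP_f42431_co.Uni.Steps

/-!
# The threshold that does not depend on the pattern
-/

set_option autoImplicit false

namespace Pool.Agent.Lib.MP_f42431_co

open Finset

variable {m n : ℕ}

/-- the permutations with `k` inversions that fix the last entry are at least as many as the
permutations of the smaller length with `k` inversions -/
theorem card_le_ZZ (n k : ℕ) :
    ((univ : Finset (Equiv.Perm (Fin n))).filter fun σ => inv σ = k).card ≤ (ZZ n k).card := by
  classical
  refine card_le_card_of_injOn (fun σ => ins σ (Fin.last n)) ?_ ?_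
  · intro σ hσ
    simp only [coe_filter, mem_univ, true_and, Set.mem_ofPred_eq] at hσ
    rw [mem_coe, mem_ZZ]
    exact ⟨by rw [inv_ins (by simpa using cut_n σ), hσ], ins_self _ _⟩
  · intro σ _ τ _ h
    exact ins_inj h

/-- if few permutations contain `p`, then inversion monotonicity holds -/
theorem mono_of_card_le {p : Equiv.Perm (Fin m)} {k : ℕ}
    (h : ∀ X : Finset (Equiv.Perm (Fin (n + 1))), (∀ σ ∈ X, Contains p σ ∧ inv σ = k) →
      X.card ≤ (YY n k).card) :
    Nat.card {σ : Equiv.Perm (Fin n) // ¬ Contains p σ ∧ inv σ = k} ≤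
      Nat.card {σ : Equiv.Perm (Fin (n + 1)) // ¬ Contains p σ ∧ inv σ = k} := by
  classical
  rw [Nat.card_eq_fintype_card, Nat.card_eq_fintype_card, Fintype.card_subtype,
    Fintype.card_subtype]
  have h1 : ((univ : Finset (Equiv.Perm (Fin n))).filter
      fun σ => ¬ Contains p σ ∧ inv σ = k).card ≤
      ((univ : Finset (Equiv.Perm (Fin n))).filter fun σ => inv σ = k).card :=
    card_le_card fun σ hσ => by
      rw [mem_filter] at hσ ⊢
      exact ⟨hσ.1, hσ.2.2⟩
  have h2 := card_le_ZZ n k
  have h3 := h ((univ : Finset (Equiv.Perm (Fin (n + 1)))).filter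
    fun σ => Contains p σ ∧ inv σ = k) fun σ hσ => (mem_filter.1 hσ).2
  have h4 : (ZZ n k).card + (YY n k).card =
      ((univ : Finset (Equiv.Perm (Fin (n + 1)))).filter fun σ => inv σ = k).card := by
    rw [← card_filter_add_card_filter_not
      (s := (univ : Finset (Equiv.Perm (Fin (n + 1)))).filter fun σ => inv σ = k)
      (fun σ => σ (Fin.last n) = Fin.last n), filter_filter, filter_filter]
    rfl
  have h5 : ((univ : Finset (Equiv.Perm (Fin (n + 1)))).filter
      fun σ => Contains p σ ∧ inv σ = k).card +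
      ((univ : Finset (Equiv.Perm (Fin (n + 1)))).filter
      fun σ => ¬ Contains p σ ∧ inv σ = k).card =
      ((univ : Finset (Equiv.Perm (Fin (n + 1)))).filter fun σ => inv σ = k).card := by
    rw [← card_filter_add_card_filter_not
      (s := (univ : Finset (Equiv.Perm (Fin (n + 1)))).filter fun σ => inv σ = k)
      (fun σ => Contains p σ), filter_filter, filter_filter]
    congr 2 <;> · ext σ; simp [and_comm]
  omega

/-- a pattern that does not end with its maximum -/
theorem mono_of_last {p : Equiv.Perm (Fin (m + 1))} (hp : p (Fin.last m) ≠ Fin.last m) (k : ℕ) :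
    Nat.card {σ : Equiv.Perm (Fin n) // ¬ Contains p σ ∧ inv σ = k} ≤
      Nat.card {σ : Equiv.Perm (Fin (n + 1)) // ¬ Contains p σ ∧ inv σ = k} := by
  refine Nat.card_le_card_of_injective (fun σ => ⟨ins σ.1 (Fin.last n), ?_, ?_⟩) ?_
  · rintro ⟨f, hf⟩
    refine σ.2.1 ?_
    have hne : ∀ j, f j ≠ Fin.last n := by
      intro j hj
      have e : j = Fin.last m := by
        by_contra hc
        have h1 := f.strictMono (Fin.lt_last_iff_ne_last.2 hc)
        rw [hj] at h1
        exact absurd h1 (not_lt.2 (Fin.le_last _))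
      subst e
      have h1 : p (Fin.last m) < p (p.symm (Fin.last m)) := by
        rw [Equiv.apply_symm_apply]
        exact Fin.lt_last_iff_ne_last.2 hp
      rw [hf, hj, ins_self] at h1
      exact absurd h1 (not_lt.2 (Fin.le_last _))
    have hc : ∀ j, ((f j).castPred (hne j)).castSucc = f j := fun j => Fin.castSucc_castPred _ _
    refine ⟨OrderEmbedding.ofStrictMono (fun j => (f j).castPred (hne j)) ?_, ?_⟩
    · intro i j hij
      rw [← Fin.castSucc_lt_castSucc_iff, hc, hc]
      exact f.strictMono hij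
    · intro i j
      have hv : ∀ j, ins σ.1 (Fin.last n) (f j) = (σ.1 ((f j).castPred (hne j))).castSucc := by
        intro j
        conv_lhs => rw [← hc j, ← Fin.succAbove_last_apply, ins_succAbove]
        exact Fin.succAbove_last_apply _
      rw [hf i j, hv, hv, Fin.castSucc_lt_castSucc_iff]
      rfl
  · rw [inv_ins (by simpa using cut_n σ.1)]
    exact σ.2.2
  · intro σ τ h
    simp only [Subtype.mk.injEq] at h
    exact Subtype.ext (ins_inj h)

theorem tau_le {p : Equiv.Perm (Fin (m + 1))} (hp : p ≠ 1) : tau p + 2 ≤ m + 1 := by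
  classical
  obtain ⟨i, hi⟩ := exists_Des_of_ne_one hp
  have hi' := mem_Des.1 hi
  have h1 : (univ : Finset (Fin (m + 1))).filter (fun i => ∀ j : Fin (m + 1), i < j ↔ p i < p j) ⊆
      univ \ {i.castSucc, i.succ} := by
    intro x hx
    rw [mem_filter] at hx
    rw [mem_sdiff]
    refine ⟨mem_univ x, fun hc => ?_⟩
    rw [mem_insert, mem_singleton] at hc
    rcases hc with rfl | rfl
    · exact lt_asymm ((hx.2 i.succ).1 Fin.castSucc_lt_succ) hi'
    · exact lt_asymm ((hx.2 i.castSucc).2 hi') Fin.castSucc_lt_succ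
  have h2 := card_le_card h1
  rw [card_sdiff_of_subset (subset_univ _), card_pair (Fin.castSucc_lt_succ).ne, card_univ,
    Fintype.card_fin] at h2
  have h3 : 0 < m := by have := i.2; omega
  unfold tau
  omega

/-- the region `k + tau p ≤ n` -/
theorem mono_of_tau {p : Equiv.Perm (Fin m)} {k : ℕ} (hn : k + tau p ≤ n) :
    Nat.card {σ : Equiv.Perm (Fin n) // ¬ Contains p σ ∧ inv σ = k} ≤
      Nat.card {σ : Equiv.Perm (Fin (n + 1)) // ¬ Contains p σ ∧ inv σ = k} := by
  obtain ⟨F, hF⟩ := exists_inj p n k (tau p) le_rfl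
  have h1 : Nat.card {σ : Equiv.Perm (Fin n) // ¬ Contains p σ ∧ inv σ = k} ≤
      Nat.card {σ : Equiv.Perm (Fin n) // ¬ Contains p σ ∧ inv σ = k ∧ tau p ≤ comps σ} := by
    refine Nat.card_le_card_of_injective
      (fun σ => ⟨σ.1, σ.2.1, σ.2.2, ?_⟩) (fun σ ρ h => Subtype.ext (by simpa using h))
    have := le_comps_add_inv σ.1
    have := σ.2.2
    omega
  have h2 : Nat.card {σ : Equiv.Perm (Fin (n + 1)) //
        ¬ Contains p σ ∧ inv σ = k ∧ tau p + 1 ≤ comps σ} ≤
      Nat.card {σ : Equiv.Perm (Fin (n + 1)) // ¬ Contains p σ ∧ inv σ = k} :=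
    Nat.card_le_card_of_injective
      (fun σ => ⟨σ.1, σ.2.1, σ.2.2.1⟩) (fun σ ρ h => Subtype.ext (by simpa using h))
  exact h1.trans ((Nat.card_le_card_of_injective F hF).trans h2)

theorem uniform (p : Equiv.Perm (Fin m)) (hp : p ≠ 1) (n k : ℕ) (hk : 3 * k ^ 3 ≤ n) :
    Nat.card {σ : Equiv.Perm (Fin n) // ¬ Contains p σ ∧ inv σ = k} ≤
      Nat.card {σ : Equiv.Perm (Fin (n + 1)) // ¬ Contains p σ ∧ inv σ = k} := by
  rcases Nat.eq_zero_or_pos m with rfl | hm
  · exact absurd (Subsingleton.elim p 1) hp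
  obtain ⟨l, rfl⟩ : ∃ l, m = l + 1 := ⟨m - 1, by omega⟩
  by_cases hlast : p (Fin.last l) = Fin.last l
  swap
  · exact mono_of_last hlast k
  by_cases h1 : k + tau p ≤ n
  · exact mono_of_tau h1
  have h2 := tau_le hp
  refine mono_of_card_le fun X hX => ?_
  by_cases h3 : l + 1 ≤ n + 1
  · exact card_cont_le (T := n - l) (by omega) (by omega) hk hp hlast hX
  · have : X = ∅ := by
      refine eq_empty_of_forall_notMem fun σ hσ => ?_
      obtain ⟨f, -⟩ := (hX σ hσ).1
      have h4 := Fintype.card_le_of_injective f f.injective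
      rw [Fintype.card_fin, Fintype.card_fin] at h4
      omega
    rw [this, card_empty]
    exact Nat.zero_le _

end Pool.Agent.Lib.MP_f42431_co
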