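import Pool.Agent.Lib.MP_f42431_co.Uni.Window

/-!
# Counting: few permutations contain `p`
-/

set_option autoImplicit false

namespace Pool.Agent.Lib.MP_f42431_co

open Finset

variable {m n : ℕ}

/-- a step down: remove an inversion at a place that can be recovered -/
theorem card_le_step {A B : Finset (Equiv.Perm (Fin (n + 1)))}
    {S : Equiv.Perm (Fin (n + 1)) → Finset (Fin n)} {b : ℕ} (hS : ∀ σ ∈ B, (S σ).card ≤ b)
    (h : ∀ σ ∈ A, ∃ c, c ∈ S (σ * sw c) ∧ σ * sw c ∈ B) : A.card ≤ b * B.card := by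
  classical
  choose c hc using h
  rw [← card_attach (s := A)]
  refine card_le_mul_card_image_of_maps_to (f := fun x : A => x.1 * sw (c x.1 x.2))
    (fun x _ => (hc x.1 x.2).2) b fun τ hτ => ?_
  refine le_trans (card_le_card_of_injOn (fun x : A => c x.1 x.2) ?_ ?_) (hS τ hτ)
  · intro x hx
    rw [mem_coe, mem_filter] at hx
    have h1 := (hc x.1 x.2).1
    rw [hx.2] at h1
    exact h1
  · intro x hx y hy hxy
    rw [mem_coe, mem_filter] at hx hy
    have h1 : x.1 * sw (c x.1 x.2) = y.1 * sw (c y.1 y.2) := hx.2.trans hy.2.symm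
    have h2 : c x.1 x.2 = c y.1 y.2 := hxy
    rw [h2] at h1
    exact Subtype.ext (mul_right_cancel h1)

/-- a step up: add an inversion at any ascent away from the end -/
theorem card_up {A B : Finset (Equiv.Perm (Fin (n + 1)))} {b j : ℕ}
    (hA : ∀ σ ∈ A, inv σ ≤ j)
    (hmap : ∀ σ ∈ A, ∀ l : Fin n, (l : ℕ) + 1 < n → l ∉ Des σ → σ * sw l ∈ B)
    (hB : ∀ σ ∈ B, inv σ ≤ b) : (n - 1 - j) * A.card ≤ b * B.card := by
  classical
  have h1 : (n - 1 - j) * A.card ≤
      (A.sigma fun σ => univ.filter fun l : Fin n => (l : ℕ) + 1 < n ∧ l ∉ Des σ).card := by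
    rw [card_sigma, mul_comm, ← smul_eq_mul]
    refine card_nsmul_le_sum _ _ _ fun σ hσ => ?_
    have h2 : (univ.filter fun l : Fin n => (l : ℕ) + 1 < n).card = n - 1 := by
      have : (univ.filter fun l : Fin n => (l : ℕ) + 1 < n).image (fun l : Fin n => (l : ℕ)) =
          range (n - 1) := by
        ext x
        simp only [mem_image, mem_filter, mem_univ, true_and, mem_range]
        constructor
        · rintro ⟨l, hl, rfl⟩
          omega
        · intro hx
          exact ⟨⟨x, by omega⟩, by simp only; omega, rfl⟩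
      rw [← card_range (n - 1), ← this, card_image_of_injective _ Fin.val_injective]
    have h3 : univ.filter (fun l : Fin n => (l : ℕ) + 1 < n) ⊆
        (univ.filter fun l : Fin n => (l : ℕ) + 1 < n ∧ l ∉ Des σ) ∪ Des σ := by
      intro l hl
      simp only [mem_union, mem_filter, mem_univ, true_and] at hl ⊢
      by_cases h : l ∈ Des σ
      · exact Or.inr h
      · exact Or.inl ⟨hl, h⟩
    have h4 := card_le_card h3
    have h5 := card_union_le (univ.filter fun l : Fin n => (l : ℕ) + 1 < n ∧ l ∉ Des σ) (Des σ)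
    have h6 := card_Des_le σ
    have h7 := hA σ hσ
    omega
  refine h1.trans (card_le_mul_card_image_of_maps_to (f := fun x => x.1 * sw x.2) ?_ b
    fun τ hτ => ?_)
  · rintro ⟨σ, l⟩ hx
    rw [mem_sigma, mem_filter] at hx
    exact hmap σ hx.1 l hx.2.2.1 hx.2.2.2
  · refine le_trans (card_le_card_of_injOn (t := Des τ) (fun x => x.2) ?_ ?_)
      ((card_Des_le τ).trans (hB τ hτ))
    · rintro ⟨σ, l⟩ hx
      rw [mem_coe, mem_filter, mem_sigma, mem_filter] at hx
      have h2 : σ * sw l = τ := hx.2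
      simp only [mem_coe]
      rw [← h2]
      exact mem_Des_mul_sw.2 hx.1.2.2.2
    · rintro ⟨σ, l⟩ hx ⟨σ', l'⟩ hx' h
      rw [mem_coe, mem_filter] at hx hx'
      have h2 : σ * sw l = τ := hx.2
      have h3 : σ' * sw l' = τ := hx'.2
      simp only at h
      subst h
      have h4 : σ = σ' := mul_right_cancel (h2.trans h3.symm)
      rw [h4]

/-- the permutations with `k` inversions that fix the last entry -/
def ZZ (n k : ℕ) : Finset (Equiv.Perm (Fin (n + 1))) :=
  univ.filter fun σ => inv σ = k ∧ σ (Fin.last n) = Fin.last n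

/-- the permutations with `k` inversions that move the last entry -/
def YY (n k : ℕ) : Finset (Equiv.Perm (Fin (n + 1))) :=
  univ.filter fun σ => inv σ = k ∧ σ (Fin.last n) ≠ Fin.last n

theorem mem_ZZ {k : ℕ} {σ : Equiv.Perm (Fin (n + 1))} :
    σ ∈ ZZ n k ↔ inv σ = k ∧ σ (Fin.last n) = Fin.last n := by simp [ZZ]

theorem mem_YY {k : ℕ} {σ : Equiv.Perm (Fin (n + 1))} :
    σ ∈ YY n k ↔ inv σ = k ∧ σ (Fin.last n) ≠ Fin.last n := by simp [YY]

theorem sw_last {a : Fin n} (h : (a : ℕ) + 1 < n) : sw a (Fin.last n) = Fin.last n :=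
  sw_of_ne (by simp; omega) (by simp; omega)

theorem lt_of_Des_last {σ : Equiv.Perm (Fin (n + 1))} (h : σ (Fin.last n) = Fin.last n)
    {a : Fin n} (ha : a ∈ Des σ) : (a : ℕ) + 1 < n := by
  have := a.2
  by_contra hc
  have e : a.succ = Fin.last n := Fin.ext (by simp; omega)
  have h1 := mem_Des.1 ha
  rw [e, h] at h1
  exact absurd h1 (not_lt.2 (Fin.le_last _))

theorem ZZ_le_YY {k : ℕ} (hn : 0 < n) : (ZZ n k).card ≤ (YY n (k + 1)).card := by
  classical
  have hd : ∀ σ ∈ ZZ n k, (⟨n - 1, by omega⟩ : Fin n) ∉ Des σ := by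
    intro σ hσ hc
    have := lt_of_Des_last (mem_ZZ.1 hσ).2 hc
    simp only at this
    omega
  refine card_le_card_of_injOn (fun σ => σ * sw (⟨n - 1, by omega⟩ : Fin n)) ?_ ?_
  · intro σ hσ
    rw [mem_coe] at hσ ⊢
    have h1 := mem_ZZ.1 hσ
    refine mem_YY.2 ⟨by rw [inv_mul_sw (hd σ hσ), h1.1], ?_⟩
    have e : (⟨n - 1, by omega⟩ : Fin n).succ = Fin.last n := Fin.ext (by simp; omega)
    rw [Equiv.Perm.mul_apply]
    nth_rewrite 1 [← e]
    rw [sw_right]
    intro hc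
    have h2 := σ.injective (hc.trans h1.2.symm)
    have h3 := congrArg Fin.val h2
    simp at h3
    omega
  · intro σ _ τ _ h
    exact mul_right_cancel h

/-- `|X ∖ Y|` -/
theorem card_fixed {T k : ℕ} (hn : n = m + T) (hT : T + 2 ≤ k) (hk : k ≤ n)
    {p : Equiv.Perm (Fin (m + 1))} (hp : p ≠ 1) {X : Finset (Equiv.Perm (Fin (n + 1)))}
    (hX : ∀ σ ∈ X, Contains p σ ∧ inv σ = k ∧ σ (Fin.last n) = Fin.last n) :
    (n + 1 - k) * X.card ≤ (k - 1) * ((3 * k - 3) * ((k - 1) * (YY n k).card)) := by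
  classical
  obtain ⟨W, W', hW, hW', h⟩ := two_steps hn hT hp
  set A1 : Finset (Equiv.Perm (Fin (n + 1))) := (ZZ n (k - 1)).filter fun σ =>
    ∃ c ∈ Des σ, c ∈ W' ∪ adj (σ * sw c) with hA1
  have e1 : X.card ≤ (k - 1) * A1.card := by
    refine card_le_step (S := fun _ => W) (fun _ _ => by omega) fun σ hσ => ?_
    obtain ⟨h1, h2, h3⟩ := hX σ hσ
    obtain ⟨a, ha, ha', hc⟩ := h σ h1 h2
    refine ⟨a, ha, mem_filter.2 ⟨mem_ZZ.2 ⟨?_, ?_⟩, hc⟩⟩
    · have := inv_mul_sw' ha'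
      omega
    · rw [Equiv.Perm.mul_apply, sw_last (lt_of_Des_last h3 ha'), h3]
  have e2 : A1.card ≤ (3 * k - 3) * (ZZ n (k - 2)).card := by
    refine card_le_step (S := fun σ => W' ∪ adj σ) (fun σ hσ => ?_) fun σ hσ => ?_
    · have h1 := card_union_le W' (adj σ)
      have h2 := card_adj_le σ
      rw [(mem_ZZ.1 hσ).1] at h2
      omega
    · obtain ⟨h1, c, hc, hc'⟩ := mem_filter.1 hσ
      have h2 := mem_ZZ.1 h1
      refine ⟨c, hc', mem_ZZ.2 ⟨?_, ?_⟩⟩
      · have := inv_mul_sw' hc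
        omega
      · rw [Equiv.Perm.mul_apply, sw_last (lt_of_Des_last h2.2 hc), h2.2]
  have e3 : (n + 1 - k) * (ZZ n (k - 2)).card ≤ (k - 1) * (ZZ n (k - 1)).card := by
    have h0 : n + 1 - k = n - 1 - (k - 2) := by omega
    rw [h0]
    refine card_up (fun σ hσ => (mem_ZZ.1 hσ).1.le) (fun σ hσ l hl hl' => ?_)
      (fun σ hσ => (mem_ZZ.1 hσ).1.le)
    have h1 := mem_ZZ.1 hσ
    refine mem_ZZ.2 ⟨by rw [inv_mul_sw hl', h1.1]; omega, ?_⟩
    rw [Equiv.Perm.mul_apply, sw_last hl, h1.2]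
  have e4 : (ZZ n (k - 1)).card ≤ (YY n k).card := by
    have h1 := ZZ_le_YY (n := n) (k := k - 1) (by omega)
    rwa [show k - 1 + 1 = k by omega] at h1
  calc (n + 1 - k) * X.card ≤ (n + 1 - k) * ((k - 1) * ((3 * k - 3) * (ZZ n (k - 2)).card)) :=
        Nat.mul_le_mul_left _ (e1.trans (Nat.mul_le_mul_left _ e2))
    _ = (k - 1) * ((3 * k - 3) * ((n + 1 - k) * (ZZ n (k - 2)).card)) := by ring
    _ ≤ (k - 1) * ((3 * k - 3) * ((k - 1) * (YY n k).card)) :=
        Nat.mul_le_mul_left _ (Nat.mul_le_mul_left _ (e3.trans (Nat.mul_le_mul_left _ e4)))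

/-- `|X ∩ Y|` -/
theorem card_moved {T k : ℕ} (hn : n = m + T) (hT : T + 2 ≤ k)
    {p : Equiv.Perm (Fin (m + 1))} (hp : p ≠ 1) (hlast : p (Fin.last m) = Fin.last m)
    {X : Finset (Equiv.Perm (Fin (n + 1)))}
    (hX : ∀ σ ∈ X, Contains p σ ∧ inv σ = k ∧ σ (Fin.last n) ≠ Fin.last n) :
    (n - k) * X.card ≤ (k - 1) * (k * (YY n k).card) := by
  classical
  obtain ⟨W, hW, h⟩ := one_step hn hp hlast
  have e1 : X.card ≤ (k - 1) * (YY n (k - 1)).card := by
    refine card_le_step (S := fun _ => W) (fun _ _ => by omega) fun σ hσ => ?_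
    obtain ⟨h1, h2, h3⟩ := hX σ hσ
    obtain ⟨a, ha, ha', ha''⟩ := h σ h1
    refine ⟨a, ha, mem_YY.2 ⟨?_, ?_⟩⟩
    · have := inv_mul_sw' ha'
      omega
    · rw [Equiv.Perm.mul_apply, sw_last ha'']
      exact h3
  have e2 : (n - k) * (YY n (k - 1)).card ≤ k * (YY n k).card := by
    have h0 : n - k = n - 1 - (k - 1) := by omega
    rw [h0]
    refine card_up (fun σ hσ => (mem_YY.1 hσ).1.le) (fun σ hσ l hl hl' => ?_)
      (fun σ hσ => (mem_YY.1 hσ).1.le)
    have h1 := mem_YY.1 hσ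
    refine mem_YY.2 ⟨by rw [inv_mul_sw hl', h1.1]; omega, ?_⟩
    rw [Equiv.Perm.mul_apply, sw_last hl]
    exact h1.2
  calc (n - k) * X.card ≤ (n - k) * ((k - 1) * (YY n (k - 1)).card) := Nat.mul_le_mul_left _ e1
    _ = (k - 1) * ((n - k) * (YY n (k - 1)).card) := by ring
    _ ≤ (k - 1) * (k * (YY n k).card) := Nat.mul_le_mul_left _ e2

/-- the permutations with `k` inversions that contain `p` are at most as many as the permutations
with `k` inversions that move the last entry -/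
theorem card_cont_le {T k : ℕ} (hn : n = m + T) (hT : T + 2 ≤ k) (hk : 3 * k ^ 3 ≤ n)
    {p : Equiv.Perm (Fin (m + 1))} (hp : p ≠ 1) (hlast : p (Fin.last m) = Fin.last m)
    {X : Finset (Equiv.Perm (Fin (n + 1)))} (hX : ∀ σ ∈ X, Contains p σ ∧ inv σ = k) :
    X.card ≤ (YY n k).card := by
  classical
  obtain ⟨q, rfl⟩ : ∃ q, k = q + 1 := ⟨k - 1, by omega⟩
  have hq : q + 1 < n := by nlinarith [sq_nonneg q, Nat.zero_le (q ^ 3)]
  have h1 := card_fixed hn hT hq.le hp (X := X.filter fun σ => σ (Fin.last n) = Fin.last n)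
    fun σ hσ => by
      rw [mem_filter] at hσ
      exact ⟨(hX σ hσ.1).1, (hX σ hσ.1).2, hσ.2⟩
  have h2 := card_moved hn hT hp hlast (X := X.filter fun σ => ¬ σ (Fin.last n) = Fin.last n)
    fun σ hσ => by
      rw [mem_filter] at hσ
      exact ⟨(hX σ hσ.1).1, (hX σ hσ.1).2, hσ.2⟩
  have h3 := card_filter_add_card_filter_not (s := X) (fun σ => σ (Fin.last n) = Fin.last n)
  set x := (X.filter fun σ => σ (Fin.last n) = Fin.last n).card
  set x' := (X.filter fun σ => ¬ σ (Fin.last n) = Fin.last n).card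
  set y := (YY n (q + 1)).card
  have h4 : (n - (q + 1)) * x ≤ q * ((3 * q) * (q * y)) := by
    refine le_trans (Nat.mul_le_mul_right _ (by omega)) (h1.trans (le_of_eq ?_))
    rw [show q + 1 - 1 = q by omega, show 3 * (q + 1) - 3 = 3 * q by omega]
  have h5 : (n - (q + 1)) * x' ≤ q * ((q + 1) * y) := by
    rw [show q + 1 - 1 = q by omega] at h2
    exact h2
  have h6 : 3 * q ^ 3 + q * (q + 1) ≤ n - (q + 1) := by
    have : 3 * q ^ 3 + q * (q + 1) + (q + 1) ≤ 3 * (q + 1) ^ 3 := by nlinarith [sq_nonneg q]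
    omega
  have h7 : (n - (q + 1)) * X.card ≤ (n - (q + 1)) * y := by
    calc (n - (q + 1)) * X.card = (n - (q + 1)) * x + (n - (q + 1)) * x' := by rw [← h3]; ring
      _ ≤ q * ((3 * q) * (q * y)) + q * ((q + 1) * y) := Nat.add_le_add h4 h5
      _ = (3 * q ^ 3 + q * (q + 1)) * y := by ring
      _ ≤ (n - (q + 1)) * y := Nat.mul_le_mul_right _ h6
  exact Nat.le_of_mul_le_mul_left h7 (by omega)

end Pool.Agent.Lib.MP_f42431_co
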