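import Pool.Agent.Lib.MP_f42431_co.Uni.Basic

/-!
# The two removable inversions of a permutation that contains `p`

`σ` has `n + 1 = (m + 1) + T` entries and `k ≥ T + 2` inversions and contains `p` (of length `m + 1`).
-/

set_option autoImplicit false

namespace Pool.Agent.Lib.MP_f42431_co

open Finset

variable {m n : ℕ}

/-- the gaps between `l` and `u` -/
def gp (n l u : ℕ) : Finset (Fin n) := univ.filter fun a => l ≤ (a : ℕ) ∧ (a : ℕ) ≤ u

theorem mem_gp {l u : ℕ} {a : Fin n} : a ∈ gp n l u ↔ l ≤ (a : ℕ) ∧ (a : ℕ) ≤ u := by simp [gp]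

theorem card_gp (l u : ℕ) : (gp n l u).card ≤ u + 1 - l := by
  rw [← Nat.card_Icc]
  refine card_le_card_of_injOn (fun a => (a : ℕ)) (fun a ha => ?_) fun a _ b _ h => Fin.ext h
  have := mem_gp.1 ha
  simpa using this

/-- a descent of `p` gives a descent of `σ` -/
theorem kept_desc {p : Equiv.Perm (Fin (m + 1))} {σ : Equiv.Perm (Fin (n + 1))}
    {f : Fin (m + 1) ↪o Fin (n + 1)} (hf : ∀ i j, p i < p j ↔ σ (f i) < σ (f j)) {i : Fin m}
    (hi : i ∈ Des p) : ∃ a ∈ Des σ, (f i.castSucc : ℕ) ≤ a ∧ (a : ℕ) + 1 ≤ f i.succ :=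
  exists_desc' (f.strictMono Fin.castSucc_lt_succ) ((hf _ _).1 (mem_Des.1 hi))

theorem window {T : ℕ} (hn : n = m + T) (f : Fin (m + 1) ↪o Fin (n + 1)) (i : Fin m) {a : Fin n}
    (h1 : (f i.castSucc : ℕ) ≤ a) (h2 : (a : ℕ) + 1 ≤ f i.succ) : a ∈ gp n i (i + T) := by
  have h3 := le_f f f.strictMono i.castSucc
  have h4 := f_le f f.strictMono i.succ
  rw [mem_gp]
  simp at h3 h4
  omega

theorem case_A {T : ℕ} (hn : n = m + T) {p : Equiv.Perm (Fin (m + 1))}
    {σ : Equiv.Perm (Fin (n + 1))} {f : Fin (m + 1) ↪o Fin (n + 1)}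
    (hf : ∀ i j, p i < p j ↔ σ (f i) < σ (f j)) {i i' : Fin m} (hi' : i' ∈ Des p)
    (hii : i < i') {a : Fin n} (ha : a ∈ Des σ) (h2 : (a : ℕ) + 1 ≤ f i.succ) :
    ∃ b ∈ Des (σ * sw a), b ∈ gp n i' (i' + T) := by
  obtain ⟨b, hb, hb1, hb2⟩ := kept_desc hf hi'
  refine ⟨b, ?_, window hn f i' hb1 hb2⟩
  have h3 : f i.succ ≤ f i'.castSucc := f.monotone (by
    rw [Fin.le_def]
    rw [Fin.lt_def] at hii
    simp
    omega)
  rw [Fin.le_def] at h3
  have hab : (a : ℕ) + 1 ≤ b := by omega
  rw [mem_Des, Equiv.Perm.mul_apply, Equiv.Perm.mul_apply]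
  have e1 : sw a b.succ = b.succ := sw_of_ne (by simp; omega) (by simp; omega)
  rw [e1]
  by_cases hc : (b : ℕ) = a + 1
  · have e2 : b.castSucc = a.succ := Fin.ext (by simp [hc])
    rw [e2, sw_right]
    have h4 := mem_Des.1 hb
    rw [e2] at h4
    exact h4.trans (mem_Des.1 ha)
  · rw [sw_of_ne (x := b.castSucc) (by simp; omega) (by simp; omega)]
    exact mem_Des.1 hb

theorem case_B {T k : ℕ} (hn : n = m + T) (hT : T + 2 ≤ k) {p : Equiv.Perm (Fin (m + 1))}
    {σ : Equiv.Perm (Fin (n + 1))} (hk : inv σ = k) {f : Fin (m + 1) ↪o Fin (n + 1)}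
    (hf : ∀ i j, p i < p j ↔ σ (f i) < σ (f j)) {i : Fin m} (hu : ∀ j ∈ Des p, j = i) {a : Fin n}
    (ha : a ∈ Des σ) (h1 : (f i.castSucc : ℕ) ≤ a) (h2 : (a : ℕ) + 1 ≤ f i.succ) :
    ∃ c ∈ Des (σ * sw a), ((i : ℕ) ≤ c + 1 ∧ (c : ℕ) ≤ i + T + 1) ∨
      ∃ g ∈ supp (σ * sw a), (g : ℕ) = c + 1 ∨ (g : ℕ) + 1 = c := by
  classical
  by_contra hcon
  push Not at hcon
  have haw := mem_gp.1 (window hn f i h1 h2)
  have hinv := inv_mul_sw' ha
  set σ1 := σ * sw a with hσ1
  -- all inversions are adjacent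
  have hA : inv σ1 ≤ (Des σ1).card := by
    refine le_trans (card_le_card (t := (Des σ1).image fun c => (c.castSucc, c.succ)) ?_)
      card_image_le
    rintro ⟨x, y⟩ hxy
    simp only [mem_filter, mem_univ, true_and] at hxy
    obtain ⟨hxy1, hxy2⟩ := hxy
    have hlt := hxy1
    rw [Fin.lt_def] at hlt
    have hy : (y : ℕ) = x + 1 := by
      by_contra hne
      obtain ⟨c, hc, hc1, hc2⟩ := exists_desc' hxy1 hxy2
      by_cases hcy : (c : ℕ) + 1 = y
      · have hc0 : (c : ℕ) - 1 < n := by have := c.2; omega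
        exact ((hcon c hc).2 ⟨c - 1, hc0⟩ (mem_supp_of_inv hxy2 (by simp only; omega)
          (by simp only; omega))).2 (by simp only; omega)
      · have hc0 : (c : ℕ) + 1 < n := by have := y.2; omega
        exact ((hcon c hc).2 ⟨c + 1, hc0⟩ (mem_supp_of_inv hxy2 (by simp only; omega)
          (by simp only; omega))).1 rfl
    have hx : (x : ℕ) < n := by have := y.2; omega
    rw [mem_image]
    have e1 : (⟨x, hx⟩ : Fin n).castSucc = x := Fin.ext rfl
    have e2 : (⟨x, hx⟩ : Fin n).succ = y := Fin.ext (by simp; omega)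
    exact ⟨⟨x, hx⟩, mem_Des.2 (by rw [e1, e2]; exact hxy2), by rw [e1, e2]⟩
  -- every descent has a deleted position
  have hB : (Des σ1).card ≤ ((univ : Finset (Fin (n + 1))) \ univ.image f).card := by
    refine card_le_card_of_injOn
      (fun c => if c.castSucc ∈ Set.range f then c.succ else c.castSucc) ?_ ?_
    · intro c hc
      have hcw := (hcon c hc).1
      have hcD : c ∈ Des σ := by
        have h3 := mem_Des.1 hc
        rw [hσ1, Equiv.Perm.mul_apply, Equiv.Perm.mul_apply,
          sw_of_ne (x := c.succ) (by simp; omega) (by simp; omega),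
          sw_of_ne (x := c.castSucc) (by simp; omega) (by simp; omega)] at h3
        exact mem_Des.2 h3
      have hno : ¬ (c.castSucc ∈ Set.range f ∧ c.succ ∈ Set.range f) := by
        rintro ⟨⟨j, hj⟩, ⟨j', hj'⟩⟩
        have hjj : j < j' := by
          rw [← f.lt_iff_lt, hj, hj']
          exact Fin.castSucc_lt_succ
        have hjm : (j : ℕ) < m := by
          have := j'.2
          rw [Fin.lt_def] at hjj
          omega
        have e1 : (⟨j, hjm⟩ : Fin m).castSucc = j := Fin.ext rfl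
        have e2 : (⟨j, hjm⟩ : Fin m).succ = j' := by
          by_contra hne
          have h3 : (⟨j, hjm⟩ : Fin m).succ < j' := by
            refine lt_of_le_of_ne ?_ hne
            rw [Fin.le_def]
            rw [Fin.lt_def] at hjj
            simp
            omega
          have h4 := f.strictMono h3
          have h5 := f.strictMono (Fin.castSucc_lt_succ (i := (⟨j, hjm⟩ : Fin m)))
          rw [hj', Fin.lt_def] at h4
          rw [e1, hj, Fin.lt_def] at h5
          simp only [Fin.val_succ, Fin.val_castSucc] at h4 h5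
          omega
        have hjD : (⟨j, hjm⟩ : Fin m) ∈ Des p := by
          rw [mem_Des, e1, e2, hf, hj, hj']
          exact mem_Des.1 hcD
        have e3 := hu _ hjD
        have h3 := le_f f f.strictMono j
        have h4 := f_le f f.strictMono j
        rw [hj] at h3 h4
        rw [Fin.ext_iff] at e3
        simp only [Fin.val_castSucc] at h3 h4 e3
        omega
      simp only [coe_sdiff, coe_univ, coe_image, Set.image_univ, Set.mem_sdiff, Set.mem_univ,
        true_and]
      split_ifs with h3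
      · exact fun h4 => hno ⟨h3, h4⟩
      · exact h3
    · have key : ∀ c ∈ Des σ1, ∀ c' ∈ Des σ1, c < c' →
          (if c.castSucc ∈ Set.range f then c.succ else c.castSucc) ≠
            (if c'.castSucc ∈ Set.range f then c'.succ else c'.castSucc) := by
        intro c hc c' hc' hcc heq
        have hne := ((hcon c hc).2 c' (mem_supp_of_Des hc')).1
        rw [Fin.lt_def] at hcc
        have heq' := congrArg Fin.val heq
        split_ifs at heq' <;> simp only [Fin.val_succ, Fin.val_castSucc] at heq' <;> omega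
      intro c hc c' hc' heq
      rcases lt_trichotomy c c' with h | h | h
      · exact absurd heq (key c hc c' hc' h)
      · exact h
      · exact absurd heq.symm (key c' hc' c hc h)
  have hC : ((univ : Finset (Fin (n + 1))) \ univ.image f).card = n - m := by
    rw [card_sdiff_of_subset (subset_univ _), card_image_of_injective _ f.injective, card_univ,
      card_univ, Fintype.card_fin, Fintype.card_fin]
    omega
  omega

/-- the gaps next to the support -/
noncomputable def adj (σ : Equiv.Perm (Fin (n + 1))) : Finset (Fin n) := by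
  classical exact univ.filter fun c => ∃ g ∈ supp σ, (g : ℕ) = c + 1 ∨ (g : ℕ) + 1 = c

theorem mem_adj {σ : Equiv.Perm (Fin (n + 1))} {c : Fin n} :
    c ∈ adj σ ↔ ∃ g ∈ supp σ, (g : ℕ) = c + 1 ∨ (g : ℕ) + 1 = c := by simp [adj]

theorem card_adj_le (σ : Equiv.Perm (Fin (n + 1))) : (adj σ).card ≤ 2 * inv σ := by
  classical
  have h : (adj σ).image (fun c : Fin n => (c : ℕ)) ⊆
      (supp σ).image (fun g : Fin n => (g : ℕ) - 1) ∪
        (supp σ).image (fun g : Fin n => (g : ℕ) + 1) := by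
    intro x hx
    rw [mem_image] at hx
    obtain ⟨c, hc, rfl⟩ := hx
    obtain ⟨g, hg, h | h⟩ := mem_adj.1 hc
    · exact mem_union_left _ (mem_image.2 ⟨g, hg, by omega⟩)
    · exact mem_union_right _ (mem_image.2 ⟨g, hg, h⟩)
  have h1 := card_le_card h
  rw [card_image_of_injective _ Fin.val_injective] at h1
  have h2 := card_supp_le σ
  have h3 : ((supp σ).image (fun g : Fin n => (g : ℕ) - 1)).card ≤ (supp σ).card := card_image_le
  have h4 : ((supp σ).image (fun g : Fin n => (g : ℕ) + 1)).card ≤ (supp σ).card := card_image_le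
  have h5 := card_union_le ((supp σ).image (fun g : Fin n => (g : ℕ) - 1))
    ((supp σ).image (fun g : Fin n => (g : ℕ) + 1))
  omega

/-- Two inversions of a permutation containing `p` can be removed at controlled places. -/
theorem two_steps {T k : ℕ} (hn : n = m + T) (hT : T + 2 ≤ k) {p : Equiv.Perm (Fin (m + 1))}
    (hp : p ≠ 1) :
    ∃ W W' : Finset (Fin n), W.card ≤ T + 1 ∧ W'.card ≤ T + 3 ∧
      ∀ σ : Equiv.Perm (Fin (n + 1)), Contains p σ → inv σ = k → ∃ a ∈ W, a ∈ Des σ ∧
        ∃ c ∈ Des (σ * sw a), c ∈ W' ∪ adj (σ * sw a * sw c) := by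
  classical
  obtain ⟨i, hi⟩ := exists_Des_of_ne_one hp
  by_cases hex : ∃ i' ∈ Des p, i' ≠ i
  · obtain ⟨i', hi', hne⟩ := hex
    have hord : ∃ j ∈ Des p, ∃ j' ∈ Des p, j < j' := by
      rcases lt_or_gt_of_ne hne with h | h
      · exact ⟨i', hi', i, hi, h⟩
      · exact ⟨i, hi, i', hi', h⟩
    obtain ⟨j, hj, j', hj', hjj⟩ := hord
    refine ⟨gp n j (j + T), gp n j' (j' + T), (card_gp _ _).trans (by omega),
      (card_gp _ _).trans (by omega), fun σ hσ hk => ?_⟩
    obtain ⟨f, hf⟩ := hσ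
    obtain ⟨a, ha, h1, h2⟩ := kept_desc hf hj
    obtain ⟨b, hb, hb'⟩ := case_A hn hf hj' hjj ha h2
    exact ⟨a, window hn f j h1 h2, ha, b, hb, mem_union_left _ hb'⟩
  · push Not at hex
    refine ⟨gp n i (i + T), gp n (i - 1) (i + T + 1), (card_gp _ _).trans (by omega),
      (card_gp _ _).trans (by omega), fun σ hσ hk => ?_⟩
    obtain ⟨f, hf⟩ := hσ
    obtain ⟨a, ha, h1, h2⟩ := kept_desc hf hi
    obtain ⟨c, hc, h⟩ := case_B hn hT hk hf hex ha h1 h2
    refine ⟨a, window hn f i h1 h2, ha, c, hc, ?_⟩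
    rcases h with h | ⟨g, hg, h⟩
    · exact mem_union_left _ (mem_gp.2 ⟨by omega, h.2⟩)
    · refine mem_union_right _ (mem_adj.2 ⟨g, mem_supp_mul_sw hg (by omega), h⟩)

/-- One inversion can be removed at a controlled place away from the end. -/
theorem one_step {T : ℕ} (hn : n = m + T) {p : Equiv.Perm (Fin (m + 1))}
    (hp : p ≠ 1) (hlast : p (Fin.last m) = Fin.last m) :
    ∃ W : Finset (Fin n), W.card ≤ T + 1 ∧ ∀ σ : Equiv.Perm (Fin (n + 1)), Contains p σ →
      ∃ a ∈ W, a ∈ Des σ ∧ (a : ℕ) + 1 < n := by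
  obtain ⟨i, hi⟩ := exists_Des_of_ne_one hp
  refine ⟨gp n i (i + T), (card_gp _ _).trans (by omega), fun σ hσ => ?_⟩
  obtain ⟨f, hf⟩ := hσ
  obtain ⟨a, ha, h1, h2⟩ := kept_desc hf hi
  refine ⟨a, window hn f i h1 h2, ha, ?_⟩
  have h3 : i.succ ≠ Fin.last m := by
    intro h
    have h4 := mem_Des.1 hi
    rw [h, hlast] at h4
    exact absurd h4 (not_lt.2 (Fin.le_last _))
  have h4 : f i.succ < f (Fin.last m) := f.strictMono (Fin.lt_last_iff_ne_last.2 h3)
  have h5 := (f (Fin.last m)).2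
  rw [Fin.lt_def] at h4
  omega

end Pool.Agent.Lib.MP_f42431_co
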